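import Pool.Agent.Helper33.MIX.Part
import Pool.Agent.Helper31.EC.Rl

/-! Mixtures: disjoint unions of extensions of a space (a uniform coin selects the extension), glueing of functions. -/

set_option autoImplicit false

namespace Pool.Agent.Helper33.MIX

open Finset Filter Topology Pool.Agent.Helper69.RK Pool.Agent.Helper31.EC Pool.Agent.Helper31.EC.Sp
open Pool.Agent.Helper31.EC.QS

noncomputable section

variable {ι : Type} [Fintype ι] [Nonempty ι] {S : Sp} {T : ι → Sp} (p : ∀ i, Pj (T i) S)

theorem card_ne : (Fintype.card ι : ℝ) ≠ 0 := by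
  exact_mod_cast Fintype.card_ne_zero

theorem card_pos : (0 : ℝ) < Fintype.card ι := by
  exact_mod_cast Fintype.card_pos

/-- the finite spaces of the disjoint union -/
def duF (k : ℕ) : FSp where
  Ω := Σ i, ((T i).F k).Ω
  ft := inferInstance
  μ := fun w => ((T w.1).F k).μ w.2 / Fintype.card ι
  nn := fun w => div_nonneg (((T w.1).F k).nn w.2) (Nat.cast_nonneg _)
  ms := by
    show ∑ w : (Σ i, ((T i).F k).Ω), ((T w.1).F k).μ w.2 / (Fintype.card ι : ℝ) = 1
    rw [Fintype.sum_sigma]
    have h1 : ∀ i, ∑ ω, ((T i).F k).μ ω / (Fintype.card ι : ℝ) = 1 / Fintype.card ι := by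
      intro i
      rw [← Finset.sum_div]
      have h2 : ∑ ω, ((T i).F k).μ ω = 1 := ((T i).F k).ms
      rw [h2]
    rw [Finset.sum_congr rfl fun i _ => h1 i, Finset.sum_const, Finset.card_univ, nsmul_eq_mul,
      mul_one_div_cancel card_ne]
  Z := Setoid.comap (fun w => (p w.1).π k w.2) (S.F k).Z
  n := (S.F k).n
  pos := (S.F k).pos

/-- the disjoint union -/
def du : Sp where
  F := duF p
  lim := S.lim

theorem sum_du (k : ℕ) (f : ((du p).F k).Ω → ℝ) : ∑ w, f w = ∑ i, ∑ ω : ((T i).F k).Ω, f ⟨i, ω⟩ :=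
  Fintype.sum_sigma f

/-- the type -/
def dut : ∀ k, ((du p).F k).Ω → ι := fun _ w => w.1

/-- the disjoint union extends the base space -/
def dup : Pj (du p) S where
  π := fun k w => (p w.1).π k w.2
  law := by
    intro k
    funext ω
    rw [push_ind]
    show ∑ w : (Σ i, ((T i).F k).Ω), e1_ind ((p w.1).π k w.2 = ω) * (((T w.1).F k).μ w.2 / (Fintype.card ι : ℝ)) = _
    rw [Fintype.sum_sigma]
    have h1 : ∀ i, ∑ x, e1_ind ((p i).π k x = ω) * (((T i).F k).μ x / (Fintype.card ι : ℝ)) =
        (S.F k).μ ω / Fintype.card ι := by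
      intro i
      rw [← (p i).law k, push_ind, Finset.sum_div]
      exact Finset.sum_congr rfl fun x _ => by ring
    rw [Finset.sum_congr rfl fun i _ => h1 i, Finset.sum_const, Finset.card_univ, nsmul_eq_mul,
      mul_div_cancel₀ _ card_ne]
  hZ := fun _ _ _ _ _ => Iff.rfl
  hn := fun _ => rfl

theorem res_du (k : ℕ) (i j : ι) (x : ((T j).F k).Ω) (hj : j ≠ i) :
    res ((du p).F k).μ (fun w => dut p k w = i) ⟨j, x⟩ = 0 :=
  res_neg ((du p).F k).μ (fun w => dut p k w = i) ⟨j, x⟩ hj

theorem res_du' (k : ℕ) (i : ι) (x : ((T i).F k).Ω) :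
    res ((du p).F k).μ (fun w => dut p k w = i) ⟨i, x⟩ = ((T i).F k).μ x / Fintype.card ι :=
  res_pos ((du p).F k).μ (fun w => dut p k w = i) ⟨i, x⟩ rfl

theorem pr_du (i : ι) (k : ℕ) : (du p).pr (ty (dut p) i) k = 1 / Fintype.card ι := by
  show ∑ w, res ((du p).F k).μ (fun w => dut p k w = i) w = _
  rw [sum_du, Finset.sum_eq_single i]
  · rw [Finset.sum_congr rfl fun x _ => res_du' p k i x, ← Finset.sum_div]
    have h2 : ∑ ω, ((T i).F k).μ ω = 1 := ((T i).F k).ms
    rw [h2]
  · intro j _ hj
    exact Finset.sum_eq_zero fun x _ => res_du p k i j x hj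
  · intro h
    exact absurd (Finset.mem_univ _) h

theorem ul_pr_du (i : ι) : ul ((du p).pr (ty (dut p) i)) = 1 / Fintype.card ι := by
  have h1 : (du p).pr (ty (dut p) i) = fun _ => 1 / (Fintype.card ι : ℝ) := by
    funext k
    exact pr_du p i k
  rw [h1, ul_const]

theorem du_pos (i : ι) : 0 < ul ((du p).pr (ty (dut p) i)) := by
  rw [ul_pr_du]
  exact one_div_pos.mpr card_pos

/-- the extensions are the pieces of the disjoint union -/
def inj (i : ι) : Pj (T i) ((du p).rest (ty (dut p) i)) where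
  π := fun _ ω => ⟨i, ω⟩
  law := by
    intro k
    have h0 : ((du p).F k).pb (fun w => dut p k w = i) = 1 / Fintype.card ι := pr_du p i k
    have h1 : ((du p).F k).pb (fun w => dut p k w = i) ≠ 0 := by
      rw [h0]
      exact one_div_ne_zero card_ne
    funext w
    have h2 : (((du p).rest (ty (dut p) i)).F k).μ w =
        (((du p).F k).pb (fun w => dut p k w = i))⁻¹ * res ((du p).F k).μ (fun w => dut p k w = i) w :=
      congrFun (((du p).F k).restμ_eq (fun w => dut p k w = i) h1) w
    have h3 := push_ind (fun x : ((T i).F k).Ω => (⟨i, x⟩ : Σ i, ((T i).F k).Ω)) ((T i).F k).μ w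
    rw [h2, h0]
    refine h3.trans ?_
    obtain ⟨j, x⟩ := w
    by_cases hj : j = i
    · subst hj
      rw [res_du', Finset.sum_eq_single x]
      · rw [e1_ind_pos rfl, one_mul]
        have := card_ne (ι := ι)
        field_simp
      · intro y _ hy
        have h4 : ¬ (⟨j, y⟩ : Σ i, ((T i).F k).Ω) = ⟨j, x⟩ := fun hc => hy (by simpa using hc)
        rw [e1_ind_neg h4, zero_mul]
      · intro h
        exact absurd (Finset.mem_univ _) h
    · rw [res_du p k i j x hj, mul_zero]
      exact Finset.sum_eq_zero fun y _ => by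
        have h4 : ¬ (⟨i, y⟩ : Σ i, ((T i).F k).Ω) = ⟨j, x⟩ := fun hc => hj (Sigma.mk.inj hc).1.symm
        rw [e1_ind_neg h4, zero_mul]
  hZ := fun k ω ω' h h' => (p i).hZ k ω ω' h h'
  hn := fun k => (p i).hn k

/-- the piece `i` of an information -/
def prjL (i : ι) (x : (du p).L) : (T i).L := (inj p i).map (restL (ty (dut p) i) (du_pos p i) x)

/-- the piece `i` of a function -/
def prj (i : ι) : QS (du p) →+* QS (T i) := (inj p i).qs.comp (QS.rest (ty (dut p) i) (du_pos p i))

theorem prj_apply (i : ι) (f : QS (du p)) :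
    prj p i f = (inj p i).qs (QS.rest (ty (dut p) i) (du_pos p i) f) := rfl

theorem prj_dg (i : ι) (f : QS (du p)) (r : ℝ) : dg (prj p i f) r = prjL p i (dg f r) := by
  rw [prj_apply, (inj p i).qs_dg, QS.rest_dg]
  rfl

theorem prjL_sup (i : ι) (x y : (du p).L) : prjL p i (x ⊔ y) = prjL p i x ⊔ prjL p i y := by
  unfold prjL
  rw [restL_sup, (inj p i).map_sup]

theorem prjL_bot (i : ι) : prjL p i ⊥ = ⊥ := by
  unfold prjL
  rw [restL_bot, (inj p i).map_bot]

theorem prjL_mono (i : ι) {x y : (du p).L} (hxy : x ≤ y) : prjL p i x ≤ prjL p i y :=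
  (inj p i).map_mono (restL_mono _ _ hxy)

theorem prj_vd (i : ι) {κ : Type} [Fintype κ] (f : κ → QS (du p)) (r : ℝ) :
    vd (fun a => prj p i (f a)) r = prjL p i (vd f r) := by
  have h1 : vd (fun a => prj p i (f a)) r =
      vd (fun a => (inj p i).qs (QS.rest (ty (dut p) i) (du_pos p i) (f a))) r := rfl
  rw [h1, (inj p i).qs_vd, QS.rest_vd]
  rfl

theorem h_prjL (i : ι) (x y : (du p).L) :
    h (prjL p i x) (prjL p i y) = h (restL (ty (dut p) i) (du_pos p i) x) (restL (ty (dut p) i) (du_pos p i) y) :=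
  (inj p i).h_map _ _

/-- entropies on the disjoint union are the means of the entropies on the pieces -/
theorem h_du (x y : (du p).L) : h x y = (∑ i, h (prjL p i x) (prjL p i y)) / Fintype.card ι := by
  rw [h_part (dut p), Finset.sum_div]
  refine Finset.sum_congr rfl fun i _ => ?_
  rw [hp_pos (dut p) (du_pos p i), ul_pr_du, h_prjL]
  ring

theorem h_du_const {x y : (du p).L} {c : ℝ} (h0 : ∀ i, h (prjL p i x) (prjL p i y) = c) : h x y = c := by
  apply h_of_part (dut p)
  intro i hE
  rw [← h0 i, h_prjL]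

theorem le_du {x y : (du p).L} : x ≤ y ↔ ∀ i, prjL p i x ≤ prjL p i y := by
  constructor
  · exact fun hxy i => prjL_mono p i hxy
  · intro h0
    apply le_of_part (dut p)
    intro i hE
    exact (inj p i).map_le.mp (h0 i)

theorem eq_du {x y : (du p).L} (h0 : ∀ i, prjL p i x = prjL p i y) : x = y :=
  le_antisymm ((le_du p).mpr fun i => (h0 i).le) ((le_du p).mpr fun i => (h0 i).ge)

theorem I_du {x y z : (du p).L} : I x y z = 0 ↔ ∀ i, I (prjL p i x) (prjL p i y) (prjL p i z) = 0 := by
  constructor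
  · intro h0 i
    exact ((inj p i).I_map _ _ _).trans (I_rest_zero _ _ h0)
  · intro h0
    apply I_of_part (dut p)
    intro i hE
    exact ((inj p i).I_map _ _ _).symm.trans (h0 i)

theorem mem_Id_du {f : QS (du p)} {r : ℝ} (hr : r ≤ 1) : f ∈ Id (du p) r ↔ ∀ i, prj p i f ∈ Id (T i) r := by
  constructor
  · intro hf i
    rw [prj_apply, (inj p i).qs_mem_Id hr]
    obtain ⟨f, rfl⟩ := mk_surj f
    rw [mk_mem_Id hr] at hf
    rw [QS.rest_mk, mk_mem_Id hr]
    have h1 := hf.rest (ty (dut p) i) (du_pos p i)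
    rw [map_zero] at h1
    exact h1
  · intro h0
    apply mem_Id_of_part (dut p) hr
    intro i hE
    exact ((inj p i).qs_mem_Id hr).mp (h0 i)

theorem prj_ext {f g : QS (du p)} (h0 : ∀ i, prj p i f = prj p i g) : f = g := by
  rw [← sub_eq_zero, ← mem_Id_one, mem_Id_du p le_rfl]
  intro i
  rw [map_sub, h0 i, sub_self]
  exact (Id _ 1).zero_mem

theorem prj_dup (i : ι) (f : QS S) : prj p i ((dup p).qs f) = (p i).qs f := by
  obtain ⟨f, rfl⟩ := mk_surj f
  rfl

theorem prjL_dup (i : ι) (x : S.L) : prjL p i ((dup p).map x) = (p i).map x := by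
  induction x using cl_ind
  rfl

/-- glueing of tame functions -/
def gluT (f : ∀ i, TR (T i)) : TR (du p) := ⟨fun k w => (f w.1).1 k w.2, by
  classical
  choose K hK h using fun i => (f i).2
  refine ⟨fun k => ∑ i, K i k, ?_, ?_⟩
  · have h1 : ∀ s : Finset ι, (du p).Sub (fun k => ∑ i ∈ s, K i k) := by
      intro s
      induction s using Finset.induction_on with
      | empty => simpa using (du p).Sub_const le_rfl
      | insert a s ha ih =>
        have h2 : (du p).Sub (K a) := by
          refine ⟨(hK a).1, ?_⟩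
          have h3 : (fun k => Real.logb 2 (K a k + 2) / ((du p).F k).n) =
              fun k => Real.logb 2 (K a k + 2) / ((T a).F k).n := by
            funext k
            rw [(p a).hn k]
            rfl
          rw [h3]
          exact (hK a).2
        have h4 := h2.add ih
        simpa [Finset.sum_insert ha] using h4
    exact h1 Finset.univ
  · have h1 : ∀ᶠ k in UF, ∀ i ∈ (Finset.univ : Finset ι), (0 ≤ K i k) ∧
        ∀ ω, ((T i).F k).μ ω ≠ 0 → |(f i).1 k ω| ≤ K i k := by
      rw [Filter.eventually_all_finset]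
      intro i _
      filter_upwards [(hK i).1, h i] with k a b using ⟨a, b⟩
    filter_upwards [h1] with k hk w hw
    obtain ⟨i, x⟩ := w
    have h2 : ((T i).F k).μ x ≠ 0 := by
      intro hc
      apply hw
      show ((T i).F k).μ x / (Fintype.card ι : ℝ) = 0
      rw [hc, zero_div]
    refine ((hk i (Finset.mem_univ i)).2 x h2).trans ?_
    exact Finset.single_le_sum (f := fun i => K i k) (fun j _ => (hk j (Finset.mem_univ j)).1) (Finset.mem_univ i)⟩

theorem prj_gluT (f : ∀ i, TR (T i)) (i : ι) : prj p i (QS.mk (gluT p f)) = QS.mk (f i) := rfl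

/-- glueing of functions -/
def glu (f : ∀ i, QS (T i)) : QS (du p) := QS.mk (gluT p fun i => QS.rep (f i))

theorem prj_glu (f : ∀ i, QS (T i)) (i : ι) : prj p i (glu p f) = f i := by
  unfold glu
  rw [prj_gluT]
  exact QS.mk_rep (f i)

theorem glu_eq {f : ∀ i, QS (T i)} {g : QS (du p)} (h0 : ∀ i, prj p i g = f i) : glu p f = g :=
  prj_ext p fun i => by rw [prj_glu, h0 i]

theorem glu_dup (f : QS S) : glu p (fun i => (p i).qs f) = (dup p).qs f := glu_eq p fun i => prj_dup p i f

/-- glueing is a homomorphism of rings -/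
def gluH : (∀ i, QS (T i)) →+* QS (du p) where
  toFun := glu p
  map_one' := glu_eq p fun i => map_one (prj p i)
  map_mul' f g := glu_eq p fun i => by rw [map_mul, prj_glu, prj_glu]; rfl
  map_zero' := glu_eq p fun i => map_zero (prj p i)
  map_add' f g := glu_eq p fun i => by rw [map_add, prj_glu, prj_glu]; rfl

theorem gluH_apply (f : ∀ i, QS (T i)) : gluH p f = glu p f := rfl

end

end Pool.Agent.Helper33.MIX
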