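import Pool.Agent.Helper33.MIX.Du
import Pool.Agent.Helper96.FLT.Rd

/-! Mixtures: events of restricted spaces; the maps of a system on a disjoint union on events with a constant type. -/

set_option autoImplicit false

namespace Pool.Agent.Helper33.MIX

open Finset Filter Topology Pool.Agent.Helper69.RK Pool.Agent.Helper31.EC Pool.Agent.Helper31.EC.Sp
open Pool.Agent.Helper31.EC.QS Pool.Agent.Helper96.FLT

noncomputable section

/-! ### double restrictions -/

open Classical in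
/-- restricted weights -/
def rsw {Ω : Type} [Fintype Ω] (μ : Ω → ℝ) (E : Ω → Prop) : Ω → ℝ :=
  fun ω => if mass (res μ E) = 0 then μ ω else res μ E ω / mass (res μ E)

theorem rsw_zero {Ω : Type} [Fintype Ω] {μ : Ω → ℝ} {E : Ω → Prop} (h : mass (res μ E) = 0) : rsw μ E = μ := by
  funext ω
  unfold rsw
  rw [if_pos h]

theorem rsw_ne {Ω : Type} [Fintype Ω] {μ : Ω → ℝ} {E : Ω → Prop} (h : mass (res μ E) ≠ 0) :
    rsw μ E = fun ω => res μ E ω / mass (res μ E) := by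
  funext ω
  unfold rsw
  rw [if_neg h]

open Classical in
/-- the event which realises a double restriction (finite level) -/
def fev {Ω : Type} [Fintype Ω] (μ : Ω → ℝ) (E E' : Ω → Prop) : Ω → Prop :=
  if mass (res μ E) = 0 then E' else if mass (res μ (fun ω => E ω ∧ E' ω)) = 0 then E else fun ω => E ω ∧ E' ω

theorem fev_and {Ω : Type} [Fintype Ω] {μ : Ω → ℝ} {E E' : Ω → Prop} (h1 : mass (res μ E) ≠ 0)
    (h2 : mass (res μ (fun ω => E ω ∧ E' ω)) ≠ 0) : fev μ E E' = fun ω => E ω ∧ E' ω := by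
  unfold fev
  rw [if_neg h1, if_neg h2]

theorem res_div {Ω : Type} (μ : Ω → ℝ) (c : ℝ) (E E' : Ω → Prop) :
    res (fun ω => res μ E ω / c) E' = fun ω => res μ (fun ω => E ω ∧ E' ω) ω / c := by
  funext ω
  by_cases h2 : E' ω
  · rw [res_pos _ _ _ h2]
    by_cases h3 : E ω
    · rw [res_pos _ _ _ h3, res_pos μ (fun ω => E ω ∧ E' ω) ω ⟨h3, h2⟩]
    · rw [res_neg _ _ _ h3, res_neg μ (fun ω => E ω ∧ E' ω) ω (fun h => h3 h.1)]
  · rw [res_neg _ _ _ h2, res_neg μ (fun ω => E ω ∧ E' ω) ω (fun h => h2 h.2), zero_div]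

theorem rsw_rsw {Ω : Type} [Fintype Ω] (μ : Ω → ℝ) (E E' : Ω → Prop) :
    rsw (rsw μ E) E' = rsw μ (fev μ E E') := by
  by_cases h1 : mass (res μ E) = 0
  · have e2 : fev μ E E' = E' := by
      unfold fev
      rw [if_pos h1]
    rw [e2, rsw_zero h1]
  · have e0 : rsw μ E = fun ω => res μ E ω / mass (res μ E) := rsw_ne h1
    have e1 : mass (res (rsw μ E) E') = mass (res μ (fun ω => E ω ∧ E' ω)) / mass (res μ E) := by
      rw [e0, res_div]
      exact (Finset.sum_div _ _ _).symm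
    by_cases h2 : mass (res μ (fun ω => E ω ∧ E' ω)) = 0
    · have e2 : fev μ E E' = E := by
        unfold fev
        rw [if_neg h1, if_pos h2]
      rw [e2]
      apply rsw_zero
      rw [e1, h2, zero_div]
    · rw [fev_and h1 h2, rsw_ne h2, rsw_ne (μ := rsw μ E) (by rw [e1]; exact div_ne_zero h2 h1), e1, e0, res_div]
      funext ω
      beta_reduce
      field_simp

theorem restμ_rsw (F : FSp) (E : F.Ω → Prop) : (F.rest E).μ = rsw F.μ E := rfl

theorem rest_rest_weights (F : FSp) (E E' : F.Ω → Prop) :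
    ((F.rest E).rest E').μ = (F.rest (fev F.μ E E')).μ := rsw_rsw F.μ E E'

variable {S : Sp}

/-- the event which realises a double restriction -/
def ev (E : ∀ k, (S.F k).Ω → Prop) (E' : ∀ k, ((S.rest E).F k).Ω → Prop) : ∀ k, (S.F k).Ω → Prop := fun k => fev (S.F k).μ (E k) (E' k)

theorem push_self {Ω : Type} [Fintype Ω] (μ : Ω → ℝ) : push (fun ω => ω) μ = μ := by
  funext ω
  classical
  unfold push
  rw [Finset.sum_eq_single ω]
  · simp
  · intro b _ hb
    rw [if_neg hb]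
  · intro h
    exact absurd (Finset.mem_univ _) h

/-- the double restriction -/
def rrj (E : ∀ k, (S.F k).Ω → Prop) (E' : ∀ k, ((S.rest E).F k).Ω → Prop) : Pj (S.rest (ev E E')) ((S.rest E).rest E') where
  π := fun _ ω => ω
  law := by
    intro k
    have h1 : (((S.rest E).rest E').F k).μ = ((S.rest (ev E E')).F k).μ :=
      rest_rest_weights (S.F k) (E k) (E' k)
    rw [h1]
    exact push_self _
  hZ := fun _ _ _ _ _ => Iff.rfl
  hn := fun _ => rfl

theorem pr_and (E : ∀ k, (S.F k).Ω → Prop) (E' : ∀ k, ((S.rest E).F k).Ω → Prop) (k : ℕ) :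
    S.pr (fun k ω => E k ω ∧ E' k ω) k = S.pr E k * (S.rest E).pr E' k :=
  (mass_res_rest (S.F k) (E k) (E' k)).symm

theorem ul_pr_and (E : ∀ k, (S.F k).Ω → Prop) (E' : ∀ k, ((S.rest E).F k).Ω → Prop) :
    ul (S.pr fun k ω => E k ω ∧ E' k ω) = ul (S.pr E) * ul ((S.rest E).pr E') := by
  rw [← ul_mul (UB_pr E) (UB_pr (S := S.rest E) E')]
  apply ul_congr
  exact Eventually.of_forall fun k => pr_and E E' k

theorem pr_ne {E : ∀ k, (S.F k).Ω → Prop} (hE : 0 < ul (S.pr E)) : ∀ᶠ k in UF, (S.F k).pb (E k) ≠ 0 := by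
  filter_upwards [(ul_tendsto (UB_pr E)).eventually (lt_mem_nhds (half_lt_self hE))] with k hk
  exact (lt_trans (half_pos hE) hk).ne'

variable {E : ∀ k, (S.F k).Ω → Prop} {E' : ∀ k, ((S.rest E).F k).Ω → Prop}

theorem and_pos (hE : 0 < ul (S.pr E)) (hE' : 0 < ul ((S.rest E).pr E')) :
    0 < ul (S.pr fun k ω => E k ω ∧ E' k ω) := by
  rw [ul_pr_and]
  exact mul_pos hE hE'

theorem ev_and (hE : 0 < ul (S.pr E)) (hE' : 0 < ul ((S.rest E).pr E')) :
    ∀ᶠ k in UF, ev E E' k = fun ω => E k ω ∧ E' k ω := by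
  filter_upwards [pr_ne hE, pr_ne (and_pos hE hE')] with k a b
  exact fev_and a b

theorem ev_pos (hE : 0 < ul (S.pr E)) (hE' : 0 < ul ((S.rest E).pr E')) : 0 < ul (S.pr (ev E E')) := by
  have h1 : ul (S.pr (ev E E')) = ul (S.pr fun k ω => E k ω ∧ E' k ω) := by
    apply ul_congr
    filter_upwards [ev_and hE hE'] with k hk
    show (S.F k).pb (ev E E' k) = (S.F k).pb (fun ω => E k ω ∧ E' k ω)
    rw [hk]
  rw [h1]
  exact and_pos hE hE'

/-- supports of restricted spaces -/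
theorem supp_rest' (hE : 0 < ul (S.pr E)) :
    ∀ᶠ k in UF, ∀ ω, ((S.rest E).F k).μ ω ≠ 0 → (S.F k).μ ω ≠ 0 ∧ E k ω := by
  filter_upwards [pr_ne hE] with k hk ω hω
  obtain ⟨a, b⟩ := (S.F k).rest_supp (E k) ω hω
  exact ⟨a, b hk⟩

theorem rest_mem (E : ∀ k, (S.F k).Ω → Prop) (hE : 0 < ul (S.pr E)) {f : QS S} {r : ℝ}
    (h : f ∈ Id S r) : QS.rest E hE f ∈ Id (S.rest E) r := by
  obtain ⟨f, rfl⟩ := mk_surj f
  rcases le_total r 1 with hr | hr
  · rw [mk_mem_Id hr] at h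
    rw [QS.rest_mk, mk_mem_Id hr]
    have h1 := h.rest E hE
    rw [map_zero] at h1
    exact h1
  · have h1 : QS.mk f = 0 := mem_Id_one.mp (Id_anti hr h)
    rw [h1, map_zero]
    exact (Id _ r).zero_mem

section cut

variable (hE : 0 < ul (S.pr E)) (hE' : 0 < ul ((S.rest E).pr E'))

/-- functions on a restricted space, on a smaller event -/
def cutQ : QS (S.rest E) →+* QS (S.rest (ev E E')) := (rrj E E').qs.comp (QS.rest (S := S.rest E) E' hE')

/-- informations on a restricted space, on a smaller event -/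
def cutL (x : (S.rest E).L) : (S.rest (ev E E')).L := (rrj E E').map (restL (S := S.rest E) E' hE' x)

theorem cutQ_rest (f : QS S) : cutQ hE' (QS.rest E hE f) = QS.rest (ev E E') (ev_pos hE hE') f := by
  obtain ⟨f, rfl⟩ := mk_surj f
  rfl

theorem cutL_rest (x : S.L) : cutL hE' (restL E hE x) = restL (ev E E') (ev_pos hE hE') x := by
  induction x using cl_ind
  rfl

theorem cutQ_dg (f : QS (S.rest E)) (r : ℝ) : dg (cutQ hE' f) r = cutL hE' (dg f r) := by
  unfold cutQ cutL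
  rw [RingHom.comp_apply, (rrj E E').qs_dg, QS.rest_dg]

theorem cutQ_vd {κ : Type} [Fintype κ] (f : κ → QS (S.rest E)) (r : ℝ) :
    vd (fun a => cutQ hE' (f a)) r = cutL hE' (vd f r) := by
  have h1 : vd (fun a => cutQ hE' (f a)) r = vd (fun a => (rrj E E').qs (QS.rest (S := S.rest E) E' hE' (f a))) r := rfl
  rw [h1, (rrj E E').qs_vd, QS.rest_vd]
  rfl

theorem cutL_sup (x y : (S.rest E).L) : cutL hE' (x ⊔ y) = cutL hE' x ⊔ cutL hE' y := by
  unfold cutL
  rw [restL_sup, (rrj E E').map_sup]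

theorem cutL_bot : cutL hE' (⊥ : (S.rest E).L) = ⊥ := by
  unfold cutL
  rw [restL_bot, (rrj E E').map_bot]

theorem cutL_mono {x y : (S.rest E).L} (hxy : x ≤ y) : cutL hE' x ≤ cutL hE' y :=
  (rrj E E').map_mono (restL_mono _ _ hxy)

theorem cutL_I {x y z : (S.rest E).L} (h0 : I x y z = 0) : I (cutL hE' x) (cutL hE' y) (cutL hE' z) = 0 :=
  ((rrj E E').I_map _ _ _).trans (I_rest_zero _ _ h0)

theorem cutQ_mem {f : QS (S.rest E)} {r : ℝ} (hr : r ≤ 1) :
    cutQ hE' f ∈ Id _ r ↔ QS.rest (S := S.rest E) E' hE' f ∈ Id _ r := (rrj E E').qs_mem_Id hr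

theorem cutQ_mem' {f : QS (S.rest E)} {r : ℝ} (hr : r ≤ 1) (h : f ∈ Id _ r) : cutQ hE' f ∈ Id _ r :=
  (cutQ_mem hE' hr).mpr (rest_mem (S := S.rest E) E' hE' h)

/-- maximal entropies stay maximal -/
theorem cutL_h_max {f : QS (S.rest E)} {B : (S.rest E).L} {r : ℝ} (hr : r ≤ 1) (hf : f ∈ Id _ r)
    (hM : h (dg f 1) B = 1 - r) : h (dg (cutQ hE' f) 1) (cutL hE' B) = 1 - r := by
  rw [cutQ_dg]
  refine ((rrj E E').h_map _ _).trans ?_
  apply Sp.h_rest_max (S := S.rest E) E' hE' hM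
  intro E2 hE2
  rw [← QS.rest_dg]
  exact h_dg_of_mem hr (rest_mem (S := S.rest E) E2 hE2 hf) _

end cut

/-! ### types -/

/-- comparison of informations on the support -/
theorem cl_le_of_supp {A B : S.Inf} (h : ∀ᶠ k in UF, ∀ ω ω', (S.F k).μ ω ≠ 0 → (S.F k).μ ω' ≠ 0 →
    (S.F k).Z ω ω' → B.1 k ω ω' → A.1 k ω ω') : cl A ≤ cl B := by
  rw [cl_le, Inf.le_def]
  apply Tendsto.congr' _ tendsto_const_nhds
  filter_upwards [h] with k hk
  unfold Sp.rt
  have h1 : (S.F k).e (A.1 k) (B.1 k ⊓ (S.F k).Z) = 0 :=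
    (S.F k).e_zero fun ω ω' a b c => hk ω ω' a b c.2 c.1
  rw [h1, zero_div]

theorem cl_eq_of_supp {A B : S.Inf} (h : ∀ᶠ k in UF, ∀ ω ω', (S.F k).μ ω ≠ 0 → (S.F k).μ ω' ≠ 0 →
    (S.F k).Z ω ω' → (B.1 k ω ω' ↔ A.1 k ω ω')) : cl A = cl B := by
  apply le_antisymm
  · apply cl_le_of_supp
    filter_upwards [h] with k hk ω ω' a b c d
    exact (hk ω ω' a b c).mp d
  · apply cl_le_of_supp
    filter_upwards [h] with k hk ω ω' a b c d
    exact (hk ω ω' a b c).mpr d

theorem mk_eq_of_supp {f g : TR S} (h : ∀ᶠ k in UF, ∀ ω, (S.F k).μ ω ≠ 0 → TR.ev f k ω = TR.ev g k ω) :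
    QS.mk f = QS.mk g := by
  rw [mk_eq]
  refine ⟨fun _ _ => True, fun _ => 0, Typ_true, S.Sub_const le_rfl, ?_⟩
  filter_upwards [h] with k hk ω a _
  rw [hk ω a, sub_self, abs_zero, zero_mul]

section types

variable {ι : Type} [Fintype ι] [Nonempty ι]

variable (S ι) in
/-- the mixture of a space with a uniform coin -/
abbrev mx : Sp := du (fun _ : ι => Pj.id S)

variable (S ι) in
/-- the mixture extends the space -/
abbrev mxp : Pj (mx S ι) S := dup (fun _ : ι => Pj.id S)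

variable {D : Sp} (q : Pj D (mx S ι))

/-- the type -/
def tyq : ∀ k, (D.F k).Ω → ι := fun k ω => (q.π k ω).1

/-- **functions of the mixture on an event of constant type** -/
theorem rest_ty (E : ∀ k, (D.F k).Ω → Prop) (hE : 0 < ul (D.pr E)) (i : ι)
    (h : ∀ᶠ k in UF, ∀ ω, ((D.rest E).F k).μ ω ≠ 0 → tyq q k ω = i) (f : QS (mx S ι)) :
    QS.rest E hE (q.qs f) = QS.rest E hE ((q.comp (mxp S ι)).qs (prj (fun _ : ι => Pj.id S) i f)) := by
  obtain ⟨g, rfl⟩ := mk_surj f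
  have h1 : prj (fun _ : ι => Pj.id S) i (QS.mk g) =
      QS.mk ((inj (fun _ : ι => Pj.id S) i).tr (TR.rest (ty (dut fun _ : ι => Pj.id S) i) g)) := rfl
  rw [h1, q.qs_mk, (q.comp (mxp S ι)).qs_mk, QS.rest_mk, QS.rest_mk]
  apply mk_eq_of_supp
  filter_upwards [h] with k hk ω hω
  have h2 : tyq q k ω = i := hk ω hω
  show g.1 k (q.π k ω) = g.1 k ⟨i, (q.π k ω).2⟩
  have h3 : q.π k ω = ⟨i, (q.π k ω).2⟩ := by
    rw [← h2]
    rfl
  exact congrArg (g.1 k) h3

/-- **informations of the mixture on an event of constant type** -/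
theorem restL_ty (E : ∀ k, (D.F k).Ω → Prop) (hE : 0 < ul (D.pr E)) (i : ι)
    (h : ∀ᶠ k in UF, ∀ ω, ((D.rest E).F k).μ ω ≠ 0 → tyq q k ω = i) (x : (mx S ι).L) :
    restL E hE (q.map x) = restL E hE ((q.comp (mxp S ι)).map (prjL (fun _ : ι => Pj.id S) i x)) := by
  induction x using cl_ind with | _ A
  apply cl_eq_of_supp (S := D.rest E)
  filter_upwards [h] with k hk ω ω' hω hω' _
  have h3 : ∀ ω, ((D.rest E).F k).μ ω ≠ 0 → q.π k ω = ⟨i, (q.π k ω).2⟩ := by
    intro ω hω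
    have h2 : tyq q k ω = i := hk ω hω
    rw [← h2]
    rfl
  show (A.1 k ⟨i, (q.π k ω).2⟩ ⟨i, (q.π k ω').2⟩) ↔ A.1 k (q.π k ω) (q.π k ω')
  rw [← h3 ω hω, ← h3 ω' hω']

end types

end

end Pool.Agent.Helper33.MIX
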