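import Pool.Agent.Helper33.MIX.Du
import Pool.Agent.Helper50.VC.Vb

/-! Mixtures of lines: a family of systems of lines through the same point gives one system of lines on the product of
the space with a coin. -/

set_option autoImplicit false

namespace Pool.Agent.Helper33.MIX

open Finset Filter Topology Pool.Agent.Helper69.RK Pool.Agent.Helper31.EC Pool.Agent.Helper31.EC.Sp
open Pool.Agent.Helper31.EC.QS Pool.Agent.Helper38.NS Pool.Agent.Helper96.FLT Pool.Agent.Helper50.VC

noncomputable section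

section image

variable {S R : Sp} {d k N : ℕ}

/-- image of a system of lines under a homomorphism -/
def vmap (φ : QS S →+* QS R) (s : VB S d k N) : VB R d k N where
  t := φ s.t
  a := fun i => φ (s.a i)
  x := fun i => φ (s.x i)
  c := fun n j => φ (s.c n j)

theorem vmap_y (φ : QS S →+* QS R) (s : VB S d k N) (i : Fin d) : (vmap φ s).fv.y i = φ (s.fv.y i) := by
  unfold FV.y
  rw [map_add, map_mul]
  rfl

theorem vmap_F (φ : QS S →+* QS R) (s : VB S d k N) (n : Fin N) : (vmap φ s).fv.F n = φ (s.fv.F n) := by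
  show ∑ j : Fin k, φ (s.c n j.succ) * φ s.t ^ (j : ℕ) = φ (∑ j : Fin k, s.c n j.succ * s.t ^ (j : ℕ))
  rw [map_sum]
  refine Finset.sum_congr rfl fun j _ => ?_
  rw [map_mul, map_pow]

theorem vmap_z (φ : QS S →+* QS R) (s : VB S d k N) (n : Fin N) : (vmap φ s).fv.z n = φ (s.fv.z n) := by
  unfold FV.z
  rw [vmap_F, map_add, map_mul]
  rfl

end image

variable {ι : Type} [Fintype ι] [Nonempty ι] {S : Sp} {T : ι → Sp} (p : ∀ i, Pj (T i) S) {d k N : ℕ}

/-- **the mixture** -/
def mixV (V : ∀ i, VB (T i) d k N) : VB (du p) d k N where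
  t := glu p fun i => (V i).t
  a := fun j => glu p fun i => (V i).a j
  x := fun j => glu p fun i => (V i).x j
  c := fun n l => glu p fun i => (V i).c n l

variable (V : ∀ i, VB (T i) d k N)

theorem mixV_prj (i : ι) : vmap (prj p i) (mixV p V) = V i := by
  have h1 : prj p i (mixV p V).t = (V i).t := prj_glu p _ i
  have h2 : (fun j => prj p i ((mixV p V).a j)) = (V i).a := funext fun j => prj_glu p _ i
  have h3 : (fun j => prj p i ((mixV p V).x j)) = (V i).x := funext fun j => prj_glu p _ i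
  have h4 : (fun n l => prj p i ((mixV p V).c n l)) = (V i).c := funext fun n => funext fun l => prj_glu p _ i
  unfold vmap
  rw [h1, h2, h3, h4]

theorem mix_t (i : ι) : prj p i (mixV p V).t = (V i).t := prj_glu p _ i

theorem mix_a (i : ι) (j : Fin d) : prj p i ((mixV p V).a j) = (V i).a j := prj_glu p _ i

theorem mix_x (i : ι) (j : Fin d) : prj p i ((mixV p V).x j) = (V i).x j := prj_glu p _ i

theorem mix_c (i : ι) (n : Fin N) (l : Fin (k + 1)) : prj p i ((mixV p V).c n l) = (V i).c n l := prj_glu p _ i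

theorem mix_y (i : ι) (j : Fin d) : prj p i ((mixV p V).fv.y j) = (V i).fv.y j := by
  rw [← vmap_y, mixV_prj]

theorem mix_z (i : ι) (n : Fin N) : prj p i ((mixV p V).fv.z n) = (V i).fv.z n := by
  rw [← vmap_z, mixV_prj]

theorem mix_iT (i : ι) : prjL p i (mixV p V).fv.iT = (V i).fv.iT := by
  unfold FV.iT
  rw [← prj_dg]
  exact congrArg (fun f => dg f 1) (mix_t p V i)

theorem mix_iX (i : ι) : prjL p i (mixV p V).fv.iX = (V i).fv.iX := by
  unfold FV.iX
  rw [← prj_vd]
  exact vd_congr (mix_x p V i) 1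

theorem mix_iL (i : ι) : prjL p i (mixV p V).fv.iL = (V i).fv.iL := by
  unfold FV.iL
  rw [prjL_sup, ← prj_vd, ← prj_vd]
  have h1 : vd (fun j => prj p i ((mixV p V).fv.a j)) 1 = vd (V i).fv.a 1 := vd_congr (mix_a p V i) 1
  have h2 : vd (fun j => prj p i ((mixV p V).fv.x j)) 1 = vd (V i).fv.x 1 := vd_congr (mix_x p V i) 1
  rw [h1, h2]

theorem mix_iB (i : ι) : prjL p i (mixV p V).fv.iB = (V i).fv.iB := by
  unfold FV.iB
  rw [← prj_vd]
  exact vd_congr (fun n => mix_c p V i n 0) 1

theorem mix_iY (i : ι) : prjL p i (mixV p V).fv.iY = (V i).fv.iY := by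
  unfold FV.iY
  rw [← prj_vd]
  exact vd_congr (mix_y p V i) 1

theorem mix_iZ (i : ι) : prjL p i (mixV p V).fv.iZ = (V i).fv.iZ := by
  unfold FV.iZ
  rw [← prj_vd]
  exact vd_congr (mix_z p V i) 1

/-- **the mixture has free heights, known coefficients and free directions** -/
theorem mixV_hyp (hV : ∀ i, (V i).Hyp) : (mixV p V).Hyp where
  ht := by
    apply h_du_const p
    intro i
    rw [prjL_sup, mix_iT, mix_iL, mix_iB]
    exact (hV i).ht
  hF := by
    intro n j
    rw [le_du p]
    intro i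
    rw [← prj_dg, mix_c, mix_iL]
    exact (hV i).hF n j
  h1 := by
    rw [I_du p]
    intro i
    rw [prjL_sup, mix_iX, mix_iY, mix_iZ, mix_iT]
    exact (hV i).h1

theorem mixV_t {t : QS S} (h : ∀ i, (V i).t = (p i).qs t) : (mixV p V).t = (dup p).qs t :=
  prj_ext p fun i => by rw [mix_t, prj_dup, h i]

theorem mixV_y {y : Fin d → QS S} (h : ∀ i j, (V i).fv.y j = (p i).qs (y j)) (j : Fin d) :
    (mixV p V).fv.y j = (dup p).qs (y j) :=
  prj_ext p fun i => by rw [mix_y, prj_dup, h i]

theorem mixV_z {z : Fin N → QS S} (h : ∀ i n, (V i).fv.z n = (p i).qs (z n)) (n : Fin N) :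
    (mixV p V).fv.z n = (dup p).qs (z n) :=
  prj_ext p fun i => by rw [mix_z, prj_dup, h i]

end

end Pool.Agent.Helper33.MIX
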