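import Pool.Agent.Helper31.EC.Uns

/-! Mixtures: finite partitions of a space into events, local - global principles. -/

set_option autoImplicit false

namespace Pool.Agent.Helper33.MIX

open Finset Filter Topology Pool.Agent.Helper69.RK Pool.Agent.Helper31.EC Pool.Agent.Helper31.EC.Sp
open Pool.Agent.Helper31.EC.QS

noncomputable section

variable {ι : Type} [Fintype ι]

omit [Fintype ι] in
theorem pr_part {Ω γ : Type} [Fintype Ω] (μ : Ω → ℝ) (g : Ω → γ) (J : Ω → ι) (ω : Ω) :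
    Pool.Agent.Helper69.RK.pr (res μ fun ω' => J ω' = J ω) g ω =
      Pool.Agent.Helper69.RK.pr μ (fun ω' => (J ω', g ω')) ω := by
  classical
  unfold Pool.Agent.Helper69.RK.pr
  refine Finset.sum_congr rfl fun ω' _ => ?_
  by_cases h : J ω' = J ω
  · rw [res_pos μ (fun ω' => J ω' = J ω) ω' h]
    by_cases h1 : g ω' = g ω
    · rw [if_pos h1, if_pos (Prod.ext h h1)]
    · rw [if_neg h1, if_neg (fun hc => h1 (Prod.ext_iff.mp hc).2)]
  · rw [res_neg μ (fun ω' => J ω' = J ω) ω' h, ite_self, if_neg (fun hc => h (Prod.ext_iff.mp hc).1)]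

theorem pr_swap3 {Ω α β γ : Type} [Fintype Ω] (μ : Ω → ℝ) (f : Ω → α) (g : Ω → β) (h : Ω → γ) (ω : Ω) :
    Pool.Agent.Helper69.RK.pr μ (fun ω' => (f ω', (g ω', h ω'))) ω =
      Pool.Agent.Helper69.RK.pr μ (fun ω' => (g ω', (f ω', h ω'))) ω := by
  classical
  unfold Pool.Agent.Helper69.RK.pr
  refine Finset.sum_congr rfl fun ω' _ => ?_
  have h1 : ((f ω', (g ω', h ω')) = (f ω, (g ω, h ω))) ↔ ((g ω', (f ω', h ω')) = (g ω, (f ω, h ω))) := by
    simp only [Prod.mk.injEq]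
    tauto
  by_cases h2 : (f ω', (g ω', h ω')) = (f ω, (g ω, h ω))
  · rw [if_pos h2, if_pos (h1.mp h2)]
  · rw [if_neg h2, if_neg (fun hc => h2 (h1.mpr hc))]

/-- entropy given a finite valued variable -/
theorem CH_part {Ω α γ : Type} [Fintype Ω] (μ : Ω → ℝ) (f : Ω → α) (g : Ω → γ) (J : Ω → ι) :
    CH μ f (fun ω => (J ω, g ω)) = ∑ i, CH (res μ fun ω => J ω = i) f g := by
  classical
  unfold CH
  rw [Finset.sum_comm]
  refine Finset.sum_congr rfl fun ω _ => ?_
  rw [Finset.sum_eq_single (J ω)]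
  · rw [res_pos μ (fun ω' => J ω' = J ω) ω rfl, pr_part μ g J ω, pr_part μ (fun ω' => (f ω', g ω')) J ω,
      pr_swap3 μ J f g ω]
  · intro i _ hi
    rw [res_neg μ (fun ω' => J ω' = i) ω (fun hc => hi hc.symm), zero_mul]
  · intro h
    exact absurd (Finset.mem_univ _) h

theorem pb_part (F : FSp) (J : F.Ω → ι) : ∑ i, F.pb (fun ω => J ω = i) = 1 := by
  classical
  unfold FSp.pb mass
  rw [Finset.sum_comm, ← F.ms]
  unfold mass
  refine Finset.sum_congr rfl fun ω _ => ?_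
  rw [Finset.sum_eq_single (J ω)]
  · exact res_pos F.μ (fun ω' => J ω' = J ω) ω rfl
  · intro i _ hi
    exact res_neg F.μ (fun ω' => J ω' = i) ω (fun hc => hi hc.symm)
  · intro h
    exact absurd (Finset.mem_univ _) h

theorem e_part (F : FSp) (J : F.Ω → ι) (A B : Setoid F.Ω) :
    F.e A (Setoid.ker J ⊓ B) = ∑ i, F.pb (fun ω => J ω = i) * (F.rest fun ω => J ω = i).e A B := by
  have h1 : F.e A (Setoid.ker J ⊓ B) = CH F.μ (Quotient.mk A) (fun ω => (J ω, Quotient.mk B ω)) := by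
    apply F.e_congr
    · intro ω ω' _ _
      exact Quotient.eq.symm
    · intro ω ω' _ _
      rw [Prod.mk.injEq]
      exact and_congr Iff.rfl Quotient.eq.symm
  rw [h1, CH_part]
  refine Finset.sum_congr rfl fun i _ => ?_
  rw [F.CH_res]
  rfl

theorem e_ker_le (F : FSp) (J : F.Ω → ι) (B : Setoid F.Ω) :
    F.e (Setoid.ker J) B ≤ Real.logb 2 (Fintype.card ι + 1) := by
  classical
  obtain ⟨X, hX⟩ : ∃ X : F.Ω → Fin 1 → ℤ, X = fun ω _ => (((Fintype.equivFin ι (J ω) : Fin _) : ℕ) : ℤ) := ⟨_, rfl⟩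
  have h1 := F.e_int_le X B (Fintype.card ι) (Nat.cast_nonneg _) (by
    intro ω ω' _ _ _ i
    rw [hX]
    have a1 := (Fintype.equivFin ι (J ω)).2
    have a2 := (Fintype.equivFin ι (J ω')).2
    have b1 : (((Fintype.equivFin ι (J ω) : Fin _) : ℕ) : ℝ) < Fintype.card ι := by exact_mod_cast a1
    have b2 : (((Fintype.equivFin ι (J ω') : Fin _) : ℕ) : ℝ) < Fintype.card ι := by exact_mod_cast a2
    have c1 : (0 : ℝ) ≤ (((Fintype.equivFin ι (J ω) : Fin _) : ℕ) : ℝ) := Nat.cast_nonneg _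
    have c2 : (0 : ℝ) ≤ (((Fintype.equivFin ι (J ω') : Fin _) : ℕ) : ℝ) := Nat.cast_nonneg _
    rw [abs_le]
    simp only [Int.cast_natCast]
    constructor <;> linarith)
  rw [Nat.cast_one, one_mul] at h1
  refine le_trans (le_of_eq ?_) h1
  have h2 : Setoid.ker X = Setoid.ker J := by
    ext ω ω'
    show X ω = X ω' ↔ J ω = J ω'
    rw [hX]
    constructor
    · intro h
      have h3 := congrFun h 0
      beta_reduce at h3
      have h4 : ((Fintype.equivFin ι (J ω) : Fin _) : ℕ) = ((Fintype.equivFin ι (J ω') : Fin _) : ℕ) := by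
        exact_mod_cast h3
      exact (Fintype.equivFin ι).injective (Fin.ext h4)
    · intro h
      funext i
      beta_reduce
      rw [h]
  rw [h2]

theorem e_part_le (F : FSp) (J : F.Ω → ι) (A B : Setoid F.Ω) :
    ∑ i, F.pb (fun ω => J ω = i) * (F.rest fun ω => J ω = i).e A B ≤ F.e A B ∧
    F.e A B ≤ ∑ i, F.pb (fun ω => J ω = i) * (F.rest fun ω => J ω = i).e A B +
      Real.logb 2 (Fintype.card ι + 1) := by
  rw [← e_part]
  constructor
  · exact F.e_anti fun ω ω' _ _ h => h.2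
  · have h1 := F.e_triangle A (Setoid.ker J) B
    have h2 := e_ker_le F J B
    linarith

/-- the event that the variable has the value `i` -/
def ty {S : Sp} (J : ∀ k, (S.F k).Ω → ι) (i : ι) : ∀ k, (S.F k).Ω → Prop := fun k ω => J k ω = i

variable {S : Sp} (J : ∀ k, (S.F k).Ω → ι)

theorem rt_part (A B : ∀ k, Setoid (S.F k).Ω) (k : ℕ) :
    ∑ i, S.pr (ty J i) k * (S.rest (ty J i)).rt A B k ≤ S.rt A B k ∧
    S.rt A B k ≤ ∑ i, S.pr (ty J i) k * (S.rest (ty J i)).rt A B k +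
      Real.logb 2 (Fintype.card ι + 1) / (S.F k).n := by
  have hn := (S.F k).pos
  obtain ⟨h1, h2⟩ := e_part_le (S.F k) (J k) (A k) (B k ⊓ (S.F k).Z)
  have e1 : ∑ i, S.pr (ty J i) k * (S.rest (ty J i)).rt A B k =
      (∑ i, (S.F k).pb (fun ω => J k ω = i) * ((S.F k).rest fun ω => J k ω = i).e (A k) (B k ⊓ (S.F k).Z)) /
        (S.F k).n := by
    rw [Finset.sum_div]
    refine Finset.sum_congr rfl fun i _ => ?_
    unfold Sp.rt
    rw [mul_div_assoc]
    rfl
  rw [e1, ← add_div]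
  unfold Sp.rt
  exact ⟨div_le_div_of_nonneg_right h1 hn.le, div_le_div_of_nonneg_right h2 hn.le⟩

theorem ul_sum_tendsto {κ : Type} (s : Finset κ) (f : κ → ℕ → ℝ) (h : ∀ i ∈ s, UB (f i)) :
    Tendsto (fun k => ∑ i ∈ s, f i k) UF (𝓝 (∑ i ∈ s, ul (f i))) :=
  tendsto_finsetSum s fun i hi => ul_tendsto (h i hi)

theorem ul_rt_part (A : S.Inf) (B : ∀ k, Setoid (S.F k).Ω) :
    ul (S.rt A.1 B) = ∑ i, ul (S.pr (ty J i)) * ul ((S.rest (ty J i)).rt A.1 B) := by
  have b1 : ∀ i, UB ((S.rest (ty J i)).rt A.1 B) := fun i => UB_rt (restI (ty J i) A) B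
  have t1 : Tendsto (fun k => ∑ i, S.pr (ty J i) k * (S.rest (ty J i)).rt A.1 B k) UF
      (𝓝 (∑ i, ul (S.pr (ty J i)) * ul ((S.rest (ty J i)).rt A.1 B))) :=
    tendsto_finsetSum _ fun i _ => (ul_tendsto (UB_pr (ty J i))).mul (ul_tendsto (b1 i))
  have t2 := t1.add (S.div_n_tendsto (Real.logb 2 (Fintype.card ι + 1)))
  rw [add_zero] at t2
  apply ul_eq
  exact tendsto_of_tendsto_of_tendsto_of_le_of_le t1 t2 (fun k => (rt_part J A.1 B k).1)
    (fun k => (rt_part J A.1 B k).2)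

open Classical in
/-- entropy on the piece `i` (zero if the probability of the piece tends to zero) -/
def hp (i : ι) (x y : S.L) : ℝ :=
  if hE : 0 < ul (S.pr (ty J i)) then h (restL (ty J i) hE x) (restL (ty J i) hE y) else 0

omit [Fintype ι] in
theorem hp_pos {i : ι} (hE : 0 < ul (S.pr (ty J i))) (x y : S.L) :
    hp J i x y = h (restL (ty J i) hE x) (restL (ty J i) hE y) := by
  unfold hp
  rw [dif_pos hE]

theorem ul_pr_nonneg (E : ∀ k, (S.F k).Ω → Prop) : 0 ≤ ul (S.pr E) :=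
  const_le_ul (UB_pr E) (Eventually.of_forall fun k => pr_nonneg E k)

/-- **entropies are mixtures** -/
theorem h_part (x y : S.L) : h x y = ∑ i, ul (S.pr (ty J i)) * hp J i x y := by
  induction x using cl_ind with | _ A
  induction y using cl_ind with | _ B
  rw [h_cl, ul_rt_part J A B.1]
  refine Finset.sum_congr rfl fun i _ => ?_
  rcases (ul_pr_nonneg (ty J i)).lt_or_eq with hE | hE
  · rw [hp_pos J hE, restL_cl, restL_cl, h_cl]
    rfl
  · rw [← hE, zero_mul, zero_mul]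

theorem pr_part_sum : ∑ i, ul (S.pr (ty J i)) = 1 := by
  have h1 : Tendsto (fun k => ∑ i, S.pr (ty J i) k) UF (𝓝 (∑ i, ul (S.pr (ty J i)))) :=
    tendsto_finsetSum _ fun i _ => ul_tendsto (UB_pr (ty J i))
  have h2 : (fun k => ∑ i, S.pr (ty J i) k) = fun _ => (1 : ℝ) := by
    funext k
    exact pb_part (S.F k) (J k)
  rw [h2] at h1
  exact tendsto_nhds_unique h1 tendsto_const_nhds

/-- **LOCAL - GLOBAL** for the order -/
theorem le_of_part {x y : S.L} (h0 : ∀ (i : ι) (hE : 0 < ul (S.pr (ty J i))),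
    restL (ty J i) hE x ≤ restL (ty J i) hE y) : x ≤ y := by
  rw [← h_eq_zero_iff, h_part J]
  apply Finset.sum_eq_zero
  intro i _
  rcases (ul_pr_nonneg (ty J i)).lt_or_eq with hE | hE
  · rw [hp_pos J hE, h_eq_zero_iff.mpr (h0 i hE), mul_zero]
  · rw [← hE, zero_mul]

/-- **LOCAL - GLOBAL** for entropies -/
theorem h_of_part {x y : S.L} {c : ℝ} (h0 : ∀ (i : ι) (hE : 0 < ul (S.pr (ty J i))),
    h (restL (ty J i) hE x) (restL (ty J i) hE y) = c) : h x y = c := by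
  rw [h_part J]
  have h1 : ∀ i, ul (S.pr (ty J i)) * hp J i x y = ul (S.pr (ty J i)) * c := by
    intro i
    rcases (ul_pr_nonneg (ty J i)).lt_or_eq with hE | hE
    · rw [hp_pos J hE, h0 i hE]
    · rw [← hE, zero_mul, zero_mul]
  rw [Finset.sum_congr rfl fun i _ => h1 i, ← Finset.sum_mul, pr_part_sum, one_mul]

theorem h_le_of_part {x y : S.L} {c : ℝ} (h0 : ∀ (i : ι) (hE : 0 < ul (S.pr (ty J i))),
    h (restL (ty J i) hE x) (restL (ty J i) hE y) ≤ c) : h x y ≤ c := by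
  rw [h_part J]
  have h1 : ∀ i, ul (S.pr (ty J i)) * hp J i x y ≤ ul (S.pr (ty J i)) * c := by
    intro i
    rcases (ul_pr_nonneg (ty J i)).lt_or_eq with hE | hE
    · rw [hp_pos J hE]
      exact mul_le_mul_of_nonneg_left (h0 i hE) hE.le
    · rw [← hE, zero_mul, zero_mul]
  refine (Finset.sum_le_sum fun i _ => h1 i).trans (le_of_eq ?_)
  rw [← Finset.sum_mul, pr_part_sum, one_mul]

theorem le_h_of_part {x y : S.L} {c : ℝ} (h0 : ∀ (i : ι) (hE : 0 < ul (S.pr (ty J i))),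
    c ≤ h (restL (ty J i) hE x) (restL (ty J i) hE y)) : c ≤ h x y := by
  rw [h_part J]
  have h1 : ∀ i, ul (S.pr (ty J i)) * c ≤ ul (S.pr (ty J i)) * hp J i x y := by
    intro i
    rcases (ul_pr_nonneg (ty J i)).lt_or_eq with hE | hE
    · rw [hp_pos J hE]
      exact mul_le_mul_of_nonneg_left (h0 i hE) hE.le
    · rw [← hE, zero_mul, zero_mul]
  refine le_trans (le_of_eq ?_) (Finset.sum_le_sum fun i _ => h1 i)
  rw [← Finset.sum_mul, pr_part_sum, one_mul]

/-- **LOCAL - GLOBAL** for independence -/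
theorem I_of_part {x y z : S.L} (h0 : ∀ (i : ι) (hE : 0 < ul (S.pr (ty J i))),
    I (restL (ty J i) hE x) (restL (ty J i) hE y) (restL (ty J i) hE z) = 0) : I x y z = 0 := by
  rw [I_eq, h_part J, h_part J, ← Finset.sum_sub_distrib]
  apply Finset.sum_eq_zero
  intro i _
  rcases (ul_pr_nonneg (ty J i)).lt_or_eq with hE | hE
  · have h1 := h0 i hE
    rw [I_eq] at h1
    rw [hp_pos J hE, hp_pos J hE, restL_sup, ← mul_sub, h1, mul_zero]
  · rw [← hE, zero_mul, zero_mul, sub_zero]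

theorem mass_res_rest (F : FSp) (E B : F.Ω → Prop) :
    F.pb E * mass (res (F.rest E).μ B) = mass (res F.μ fun ω => E ω ∧ B ω) := by
  by_cases h0 : F.pb E = 0
  · rw [h0, zero_mul]
    symm
    apply Finset.sum_eq_zero
    intro ω _
    by_cases h : E ω ∧ B ω
    · rw [res_pos F.μ (fun ω => E ω ∧ B ω) ω h, ← res_pos F.μ E ω h.1]
      exact F.res_zero_of_pb E h0 ω
    · exact res_neg F.μ (fun ω => E ω ∧ B ω) ω h
  · show F.pb E * ∑ ω, res (F.restμ E) B ω = ∑ ω, res F.μ (fun ω => E ω ∧ B ω) ω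
    rw [Finset.mul_sum]
    refine Finset.sum_congr rfl fun ω _ => ?_
    rw [F.restμ_eq E h0]
    by_cases h1 : B ω
    · rw [res_pos (fun ω => (F.pb E)⁻¹ * res F.μ E ω) B ω h1, ← mul_assoc, mul_inv_cancel₀ h0, one_mul]
      by_cases h2 : E ω
      · rw [res_pos F.μ E ω h2, res_pos F.μ (fun ω => E ω ∧ B ω) ω ⟨h2, h1⟩]
      · rw [res_neg F.μ E ω h2, res_neg F.μ (fun ω => E ω ∧ B ω) ω fun h => h2 h.1]
    · rw [res_neg (fun ω => (F.pb E)⁻¹ * res F.μ E ω) B ω h1, mul_zero,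
        res_neg F.μ (fun ω => E ω ∧ B ω) ω fun h => h1 h.2]

theorem mass_part (F : FSp) (K : F.Ω → ι) (B : F.Ω → Prop) :
    mass (res F.μ B) = ∑ i, F.pb (fun ω => K ω = i) * mass (res (F.rest fun ω => K ω = i).μ B) := by
  rw [Finset.sum_congr rfl fun i _ => mass_res_rest F (fun ω => K ω = i) B]
  unfold mass
  rw [Finset.sum_comm]
  refine Finset.sum_congr rfl fun ω _ => ?_
  rw [Finset.sum_eq_single (K ω)]
  · by_cases h : B ω
    · rw [res_pos F.μ B ω h, res_pos F.μ (fun ω' => K ω' = K ω ∧ B ω') ω ⟨rfl, h⟩]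
    · rw [res_neg F.μ B ω h, res_neg F.μ (fun ω' => K ω' = K ω ∧ B ω') ω fun hc => h hc.2]
  · intro i _ hi
    exact res_neg F.μ (fun ω' => K ω' = i ∧ B ω') ω fun hc => hi hc.1.symm
  · intro h
    exact absurd (Finset.mem_univ _) h

/-- **LOCAL - GLOBAL** for typical events -/
theorem typ_of_part {A : ∀ k, (S.F k).Ω → Prop}
    (h0 : ∀ (i : ι), 0 < ul (S.pr (ty J i)) → Typ (S := S.rest (ty J i)) A) : Typ A := by
  unfold Typ
  have h1 : (fun k => mass (res (S.F k).μ fun ω => ¬ A k ω)) =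
      fun k => ∑ i, S.pr (ty J i) k * mass (res ((S.rest (ty J i)).F k).μ fun ω => ¬ A k ω) := by
    funext k
    exact mass_part (S.F k) (J k) _
  rw [h1]
  have h2 : (0 : ℝ) = ∑ _i : ι, (0 : ℝ) := by simp
  rw [h2]
  apply tendsto_finsetSum
  intro i _
  have b0 : ∀ k, 0 ≤ mass (res ((S.rest (ty J i)).F k).μ fun ω => ¬ A k ω) := fun k =>
    ((S.rest (ty J i)).F k).pb_nonneg fun ω => ¬ A k ω
  have b1 : ∀ k, mass (res ((S.rest (ty J i)).F k).μ fun ω => ¬ A k ω) ≤ 1 := fun k =>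
    ((S.rest (ty J i)).F k).pb_le_one fun ω => ¬ A k ω
  rcases (ul_pr_nonneg (ty J i)).lt_or_eq with hE | hE
  · have h3 := h0 i hE
    unfold Typ at h3
    refine squeeze_zero (fun k => mul_nonneg (pr_nonneg _ k) (b0 k)) (fun k => ?_) h3
    exact mul_le_of_le_one_left (b0 k) (pr_le_one _ k)
  · have h3 := ul_tendsto (UB_pr (ty J i))
    rw [← hE] at h3
    refine squeeze_zero (fun k => mul_nonneg (pr_nonneg _ k) (b0 k)) (fun k => ?_) h3
    exact mul_le_of_le_one_right (pr_nonneg _ k) (b1 k)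

/-- **LOCAL - GLOBAL** for small functions -/
theorem mem_Id_of_part {f : QS S} {r : ℝ} (hr : r ≤ 1) (h0 : ∀ (i : ι) (hE : 0 < ul (S.pr (ty J i))),
    QS.rest (ty J i) hE f ∈ Id (S.rest (ty J i)) r) : f ∈ Id S r := by
  obtain ⟨f, rfl⟩ := mk_surj f
  rw [mk_mem_Id hr, TR.ag_iff_levels]
  intro δ hδ
  apply typ_of_part J
  intro i hE
  have h1 := h0 i hE
  rw [QS.rest_mk, mk_mem_Id hr, TR.ag_iff_levels] at h1
  exact h1 δ hδ

/-- **LOCAL - GLOBAL** for equalities -/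
theorem eq_of_part {f g : QS S} (h0 : ∀ (i : ι) (hE : 0 < ul (S.pr (ty J i))),
    QS.rest (ty J i) hE f = QS.rest (ty J i) hE g) : f = g := by
  rw [← sub_eq_zero, ← mem_Id_one]
  apply mem_Id_of_part J le_rfl
  intro i hE
  rw [map_sub, h0 i hE, sub_self]
  exact (Id _ 1).zero_mem

/-- units are bounded below at all levels -/
theorem isUnit_mk_iff {f : TR S} :
    IsUnit (QS.mk f) ↔ ∀ δ : ℝ, 0 < δ → Typ (fun k ω => S.dl δ k ≤ |TR.ev f k ω|) := by
  rw [isUnit_mk]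
  constructor
  · rintro ⟨K, hK, hT⟩ δ hδ
    refine hT.mono ?_
    filter_upwards [hK.eventually_le hδ, hK.1] with k hk hk0 ω _ hω
    have e2 : S.dl δ k * 2 ^ (δ * (S.F k).n) = 1 := by
      unfold Sp.dl
      rw [← Real.rpow_add (by norm_num : (0 : ℝ) < 2)]
      simp
    have h3 : (0 : ℝ) < 2 ^ (δ * (S.F k).n) := by positivity
    have h4 : K k * |TR.ev f k ω| ≤ 2 ^ (δ * (S.F k).n) * |TR.ev f k ω| :=
      mul_le_mul_of_nonneg_right (by linarith) (abs_nonneg _)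
    have h5 := S.dl_pos δ k
    nlinarith
  · exact nd_of_levels

/-- **LOCAL - GLOBAL** for units -/
theorem isUnit_of_part {f : QS S} (h0 : ∀ (i : ι) (hE : 0 < ul (S.pr (ty J i))),
    IsUnit (QS.rest (ty J i) hE f)) : IsUnit f := by
  obtain ⟨f, rfl⟩ := mk_surj f
  rw [isUnit_mk_iff]
  intro δ hδ
  apply typ_of_part J
  intro i hE
  have h1 := h0 i hE
  rw [QS.rest_mk, isUnit_mk_iff] at h1
  exact h1 δ hδ

end

end Pool.Agent.Helper33.MIX
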